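import Mathlib

open scoped ContDiff

namespace Pool.Agent.H.MP_035beb_an

/-- the determinant of two plane vectors -/
def cr (u v : ℝ × ℝ) : ℝ := u.1 * v.2 - u.2 * v.1

/-- `g` is a smooth regular parametrisation of period one of a simple closed curve that meets each
of its tangent lines only in the point of tangency -/
structure Oval (g : ℝ → ℝ × ℝ) : Prop where
  smooth : ContDiff ℝ ∞ g
  simple : ∀ s t, g s = g t ↔ ∃ n : ℤ, t = s + n
  regular : ∀ s, deriv g s ≠ 0
  strict : ∀ s t, cr (deriv g s) (g t - g s) = 0 → g t = g s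

/-- the involution defined by `P` sends `g s` to `g t` -/
def Sig (g : ℝ → ℝ × ℝ) (P : ℝ × ℝ) (s t : ℝ) : Prop :=
  cr (g s - P) (g t - P) = 0 ∧ (g t = g s ↔ cr (deriv g s) (g s - P) = 0)

/-- `h s` are homogeneous coordinates of the image of `g s` under a diffeomorphism from the curve
to the projective line, which conjugates the two-pencil map to the projective map given by `M` -/
def MobConj (g : ℝ → ℝ × ℝ) (P Q : ℝ × ℝ) : Prop :=
  ∃ (h : ℝ → ℝ × ℝ) (M : (ℝ × ℝ) ≃ₗ[ℝ] (ℝ × ℝ)), ContDiff ℝ 1 h ∧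
    (∀ s, cr (h s) (deriv h s) ≠ 0) ∧ (∀ s t, cr (h s) (h t) = 0 ↔ g s = g t) ∧
    (∀ v, ∃ s, cr v (h s) = 0) ∧
    ∀ s t r, Sig g P s t → Sig g Q t r → cr (M (h s)) (h r) = 0

end Pool.Agent.H.MP_035beb_an
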