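import Mathlib
import Pool.Agent.H.MP_035beb_an.D

open scoped ContDiff Topology
open Filter Set

namespace Pool.Agent.H.MP_035beb_an

variable {g : ℝ → ℝ × ℝ}

theorem hcr {u v : ℝ → ℝ × ℝ} {u' v' : ℝ × ℝ} {s : ℝ} (hu : HasDerivAt u u' s)
    (hv : HasDerivAt v v' s) :
    HasDerivAt (fun t => cr (u t) (v t)) (cr u' (v s) + cr (u s) v') s := by
  have u1 : HasDerivAt (fun t => (u t).1) u'.1 s := by simpa using hu.hasFDerivAt.fst.hasDerivAt
  have u2 : HasDerivAt (fun t => (u t).2) u'.2 s := by simpa using hu.hasFDerivAt.snd.hasDerivAt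
  have v1 : HasDerivAt (fun t => (v t).1) v'.1 s := by simpa using hv.hasFDerivAt.fst.hasDerivAt
  have v2 : HasDerivAt (fun t => (v t).2) v'.2 s := by simpa using hv.hasFDerivAt.snd.hasDerivAt
  have h := ((u1.mul v2).sub (u2.mul v1))
  refine (h.congr_deriv ?_)
  simp only [cr]; ring

theorem hcr1 (e c : ℝ × ℝ) {v : ℝ → ℝ × ℝ} {v' : ℝ × ℝ} {s : ℝ}
    (hv : HasDerivAt v v' s) : HasDerivAt (fun t => cr e (v t - c)) (cr e v') s := by
  have h := hcr (hasDerivAt_const s e) (hv.sub_const c)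
  refine h.congr_deriv ?_
  simp [cr]

theorem Oval.hd (hg : Oval g) (s : ℝ) : HasDerivAt g (deriv g s) s :=
  (hg.smooth.differentiable (by simp) s).hasDerivAt

theorem Oval.sd (hg : Oval g) : ContDiff ℝ ∞ (deriv g) := hg.smooth.deriv' 

theorem Oval.hdd (hg : Oval g) (s : ℝ) : HasDerivAt (deriv g) (deriv (deriv g) s) s :=
  (hg.sd.differentiable (by simp) s).hasDerivAt

theorem Oval.deq (hg : Oval g) {s t : ℝ} (h : g s = g t) : deriv g s = deriv g t := by
  obtain ⟨n, rfl⟩ := (hg.simple s t).1 h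
  have e : (fun u => g (u + n)) = g := by
    funext u; exact ((hg.simple u (u + n)).2 ⟨n, rfl⟩).symm
  have := deriv_comp_add_const g (n : ℝ) s
  rw [e] at this; exact this

theorem Oval.ne (hg : Oval g) {s t : ℝ} (h1 : s < t) (h2 : t < s + 1) : g t ≠ g s := by
  intro h
  obtain ⟨n, hn⟩ := (hg.simple s t).1 h.symm
  have a : (0 : ℝ) < n := by linarith
  have b : (n : ℝ) < 1 := by linarith
  have a' : 0 < n := by exact_mod_cast a
  have b' : n < 1 := by exact_mod_cast b
  omega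

theorem cr_cont {X : Type*} [TopologicalSpace X] {u v : X → ℝ × ℝ} (hu : Continuous u)
    (hv : Continuous v) : Continuous fun x => cr (u x) (v x) := by
  unfold cr; fun_prop

theorem Oval.sign (hg : Oval g) :
    ∃ ε : ℝ, ∀ s t, g t ≠ g s → 0 < ε * cr (deriv g s) (g t - g s) := by
  let S : Set (ℝ × ℝ) := univ ×ˢ Ioo (0 : ℝ) 1
  let F : ℝ × ℝ → ℝ := fun p => cr (deriv g p.1) (g (p.1 + p.2) - g p.1)
  have hc := hg.smooth.continuous
  have hd := hg.sd.continuous
  have hF : Continuous F := cr_cont (by fun_prop) (by fun_prop)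
  have hS : IsPreconnected S := isPreconnected_univ.prod isPreconnected_Ioo
  have hne : ∀ p ∈ S, F p ≠ 0 := fun p hp h =>
    hg.ne (by linarith [hp.2.1]) (by linarith [hp.2.2]) (hg.strict _ _ h)
  have h0 : ((0 : ℝ), (1 / 2 : ℝ)) ∈ S := ⟨trivial, by norm_num, by norm_num⟩
  refine ⟨F (0, 1 / 2), fun s t hst => ?_⟩
  have hp : (s, Int.fract (t - s)) ∈ S := by
    refine ⟨trivial, lt_of_le_of_ne (Int.fract_nonneg _) ?_, Int.fract_lt_one _⟩
    intro h
    apply hst
    refine ((hg.simple s t).2 ⟨⌊t - s⌋, ?_⟩).symm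
    have := Int.floor_add_fract (t - s)
    simp only at h
    linarith
  have e : g (s + Int.fract (t - s)) = g t := by
    refine (hg.simple _ t).2 ⟨⌊t - s⌋, ?_⟩
    have := Int.floor_add_fract (t - s)
    linarith
  have e2 : F (s, Int.fract (t - s)) = cr (deriv g s) (g t - g s) := by simp only [F, e]
  rw [← e2]
  by_contra hc'
  have a := hne _ h0
  have b := hne _ hp
  rcases lt_or_gt_of_ne a with a | a <;> rcases lt_or_gt_of_ne b with b | b
  · exact hc' (mul_pos_of_neg_of_neg a b)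
  · obtain ⟨p, hp, h⟩ := hS.intermediate_value h0 hp hF.continuousOn ⟨a.le, b.le⟩
    exact hne p hp h
  · obtain ⟨p, hp, h⟩ := hS.intermediate_value hp h0 hF.continuousOn ⟨b.le, a.le⟩
    exact hne p hp h
  · exact hc' (mul_pos a b)

theorem lemS {a b c n12 n13 n21 n23 n31 n32 : ℝ} (h12 : 0 < n12) (h13 : 0 < n13) (h21 : 0 < n21)
    (h23 : 0 < n23) (h31 : 0 < n31) (h32 : 0 < n32) (e1 : b * n12 + c * n13 = 0)
    (e2 : a * n21 + c * n23 = 0) (e3 : a * n31 + b * n32 = 0) : a = 0 ∧ b = 0 ∧ c = 0 := by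
  have h : a * (n21 * n13 * n32 + n31 * n12 * n23) = 0 := by
    linear_combination (n13 * n32) * e2 + (n12 * n23) * e3 - (n23 * n32) * e1
  have ha : a = 0 := by
    rcases mul_eq_zero.1 h with h | h
    · exact h
    · exact absurd h (by positivity)
  subst ha
  refine ⟨rfl, ?_, ?_⟩
  · have : b * n32 = 0 := by linarith
    exact (mul_eq_zero.1 this).resolve_right h32.ne'
  · have : c * n23 = 0 := by linarith
    exact (mul_eq_zero.1 this).resolve_right h23.ne'

theorem nsq {u : ℝ × ℝ} (h : u ≠ 0) : 0 < u.1 ^ 2 + u.2 ^ 2 := by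
  by_contra hc
  apply h
  have a : u.1 = 0 := by nlinarith [sq_nonneg u.1, sq_nonneg u.2]
  have b : u.2 = 0 := by nlinarith [sq_nonneg u.1, sq_nonneg u.2]
  exact Prod.ext a b

theorem Oval.col3 (hg : Oval g) {s t r : ℝ} (h : cr (g t - g s) (g r - g s) = 0)
    (h1 : g t ≠ g s) (h2 : g r ≠ g s) : g r = g t := by
  by_contra h3
  obtain ⟨ε, hε⟩ := hg.sign
  have hu := nsq (sub_ne_zero.2 h1)
  have := lemS (a := ((g t - g s).1 * (g r - g s).1 + (g t - g s).2 * (g r - g s).2) -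
      ((g t - g s).1 ^ 2 + (g t - g s).2 ^ 2))
    (b := -((g t - g s).1 * (g r - g s).1 + (g t - g s).2 * (g r - g s).2))
    (c := (g t - g s).1 ^ 2 + (g t - g s).2 ^ 2)
    (hε s t h1) (hε s r h2) (hε t s h1.symm) (hε t r h3) (hε r s h2.symm) (hε r t (Ne.symm h3))
    ?_ ?_ ?_
  · exact hu.ne' this.2.2
  all_goals simp only [cr, Prod.fst_sub, Prod.snd_sub] at h ⊢
  · linear_combination (ε * ((deriv g s).1 * ((g t).1 - (g s).1) +
      (deriv g s).2 * ((g t).2 - (g s).2))) * h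
  · linear_combination (ε * ((deriv g t).1 * ((g t).1 - (g s).1) +
      (deriv g t).2 * ((g t).2 - (g s).2))) * h
  · linear_combination (ε * ((deriv g r).1 * ((g t).1 - (g s).1) +
      (deriv g r).2 * ((g t).2 - (g s).2))) * h

theorem Oval.tan3 (hg : Oval g) {s t r w : ℝ} {v : ℝ × ℝ} (h1 : g t ≠ g s) (h2 : g r ≠ g s)
    (h3 : g r ≠ g t) (e1 : cr (deriv g s) (w • g s - v) = 0)
    (e2 : cr (deriv g t) (w • g t - v) = 0) (e3 : cr (deriv g r) (w • g r - v) = 0) :
    w = 0 ∧ v = 0 := by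
  obtain ⟨ε, hε⟩ := hg.sign
  have hD : cr (g t - g s) (g r - g s) ≠ 0 := fun h => h3 (hg.col3 h h1 h2)
  have := lemS (a := cr (g t - g s) (g r - g s) * w - cr (v - w • g s) (g r - g s) -
      cr (g t - g s) (v - w • g s))
    (b := cr (v - w • g s) (g r - g s)) (c := cr (g t - g s) (v - w • g s))
    (hε s t h1) (hε s r h2) (hε t s h1.symm) (hε t r h3) (hε r s h2.symm) (hε r t (Ne.symm h3))
    ?_ ?_ ?_
  · obtain ⟨a, b, c⟩ := this
    have hw : w = 0 := by
      rw [b, c, sub_zero, sub_zero] at a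
      exact (mul_eq_zero.1 a).resolve_left hD
    subst hw
    refine ⟨rfl, ?_⟩
    simp only [zero_smul, sub_zero] at b c
    refine Prod.ext ?_ ?_
    · apply mul_left_cancel₀ hD
      simp only [cr, Prod.fst_sub, Prod.snd_sub, Prod.fst_zero] at b c ⊢
      linear_combination ((g t).1 - (g s).1) * b + ((g r).1 - (g s).1) * c
    · apply mul_left_cancel₀ hD
      simp only [cr, Prod.fst_sub, Prod.snd_sub, Prod.snd_zero] at b c ⊢
      linear_combination ((g t).2 - (g s).2) * b + ((g r).2 - (g s).2) * c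
  all_goals simp only [cr, Prod.fst_sub, Prod.snd_sub, Prod.smul_fst, Prod.smul_snd,
    smul_eq_mul] at e1 e2 e3 ⊢
  · linear_combination (-ε * (((g t).1 - (g s).1) * ((g r).2 - (g s).2) -
      ((g t).2 - (g s).2) * ((g r).1 - (g s).1))) * e1
  · linear_combination (-ε * (((g t).1 - (g s).1) * ((g r).2 - (g s).2) -
      ((g t).2 - (g s).2) * ((g r).1 - (g s).1))) * e2
  · linear_combination (-ε * (((g t).1 - (g s).1) * ((g r).2 - (g s).2) -
      ((g t).2 - (g s).2) * ((g r).1 - (g s).1))) * e3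

theorem Oval.second (hg : Oval g) (e : ℝ × ℝ) (s : ℝ) (h : cr e (deriv g s) ≠ 0) :
    ∃ t, g t ≠ g s ∧ cr e (g t - g s) = 0 := by
  set k := cr e (deriv g s) with hk
  let φ : ℝ → ℝ := fun t => k * cr e (g t - g s)
  have p1 : g s = g (s + 1) := (hg.simple s (s + 1)).2 ⟨1, by simp⟩
  have d1 : HasDerivAt φ (k * k) s := (hcr1 e (g s) (hg.hd s)).const_mul k
  have d2 : HasDerivAt φ (k * k) (s + 1) := by
    have := (hcr1 e (g s) (hg.hd (s + 1))).const_mul k
    rwa [← hg.deq p1] at this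
  have z1 : φ s = 0 := by simp [φ, cr]
  have z2 : φ (s + 1) = 0 := by simp [φ, cr, ← p1]
  have kk : 0 < k * k := mul_self_pos.2 h
  have hc : Continuous φ := by
    have := hg.smooth.continuous
    exact continuous_const.mul (cr_cont (by fun_prop) (by fun_prop))
  have t1 := (hasDerivAt_iff_tendsto_slope.1 d1).eventually (lt_mem_nhds kk)
  have t2 := (hasDerivAt_iff_tendsto_slope.1 d2).eventually (lt_mem_nhds kk)
  obtain ⟨u, hu, hu2⟩ := ((t1.filter_mono (nhdsGT_le_nhdsNE s)).and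
    (Ioo_mem_nhdsGT (show s < s + 1 / 2 by linarith))).exists
  obtain ⟨v, hv, hv2⟩ := ((t2.filter_mono (nhdsLT_le_nhdsNE (s + 1))).and
    (Ioo_mem_nhdsLT (show s + 1 / 2 < s + 1 by linarith))).exists
  rw [slope_def_field, z1, sub_zero] at hu
  rw [slope_def_field, z2, sub_zero] at hv
  have a : 0 < φ u := by
    have := mul_pos hu (sub_pos.2 hu2.1)
    rwa [div_mul_cancel₀ _ (sub_pos.2 hu2.1).ne'] at this
  have b : φ v < 0 := by
    have := mul_neg_of_pos_of_neg hv (sub_neg.2 hv2.2)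
    rwa [div_mul_cancel₀ _ (sub_neg.2 hv2.2).ne] at this
  obtain ⟨t, ht, h0⟩ := intermediate_value_Icc' (show u ≤ v by linarith [hu2.2, hv2.1])
    hc.continuousOn ⟨b.le, a.le⟩
  refine ⟨t, hg.ne (by linarith [ht.1, hu2.1]) (by linarith [ht.2, hv2.2]), ?_⟩
  exact (mul_eq_zero.1 h0).resolve_left h

theorem Oval.sigEx (hg : Oval g) (P : ℝ × ℝ) (s : ℝ) : ∃ t, Sig g P s t := by
  by_cases h : cr (deriv g s) (g s - P) = 0
  · exact ⟨s, by simp [cr, mul_comm], by simp [h]⟩
  · obtain ⟨t, h1, h2⟩ := hg.second (g s - P) s (fun h' => h (by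
      simp only [cr] at h' ⊢; linarith))
    refine ⟨t, ?_, by simp [h, h1]⟩
    simp only [cr, Prod.fst_sub, Prod.snd_sub] at h2 ⊢
    linarith

theorem Oval.sig_of (hg : Oval g) {P : ℝ × ℝ} (hP : P ∉ range g) {s t : ℝ}
    (h : cr (g s - P) (g t - P) = 0) (h1 : g t ≠ g s) : Sig g P s t := by
  refine ⟨h, fun h' => absurd h' h1, fun h' => hg.strict s t ?_⟩
  have hu := nsq (sub_ne_zero.2 (fun e : g s = P => hP ⟨s, e⟩))
  apply mul_left_cancel₀ hu.ne'
  simp only [cr, Prod.fst_sub, Prod.snd_sub] at h h' ⊢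
  linear_combination ((deriv g s).1 * ((g s).1 - P.1) + (deriv g s).2 * ((g s).2 - P.2)) * h +
    (((g s).1 - P.1) * ((g t).1 - (g s).1) + ((g s).2 - P.2) * ((g t).2 - (g s).2)) * h'

theorem Oval.loc (hg : Oval g) {P : ℝ × ℝ} (hP : P ∉ range g) {a b : ℝ}
    (h : cr (g a - P) (g b - P) = 0) (h1 : g b ≠ g a) :
    ∃ (f : ℝ → ℝ) (k : ℝ), f a = b ∧ HasDerivAt f k a ∧ (∀ᶠ s in 𝓝 a, Sig g P s (f s)) ∧
      cr (deriv g a) (g b - P) + k * cr (g a - P) (deriv g b) = 0 := by
  set e := g a - P with he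
  let N : ℝ → ℝ := fun s => cr e (g s - P)
  let D : ℝ → ℝ := fun s => e.1 * (g s - P).1 + e.2 * (g s - P).2
  let φ : ℝ → ℝ := fun s => N s / D s
  have hs := hg.smooth
  have hN : ContDiff ℝ ∞ N := by simp only [N, cr]; fun_prop
  have hD : ContDiff ℝ ∞ D := by simp only [D]; fun_prop
  have hu := nsq (sub_ne_zero.2 (fun e : g a = P => hP ⟨a, e⟩))
  have hv := nsq (sub_ne_zero.2 (fun e : g b = P => hP ⟨b, e⟩))
  have Da : D a ≠ 0 := by
    simp only [D, ← he]; rw [← he] at hu; nlinarith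
  have Db : D b ≠ 0 := by
    intro h0
    have : (e.1 ^ 2 + e.2 ^ 2) * ((g b - P).1 ^ 2 + (g b - P).2 ^ 2) = 0 := by
      simp only [D, cr] at h0 h
      linear_combination (e.1 * (g b - P).1 + e.2 * (g b - P).2) * h0 +
        (e.1 * (g b - P).2 - e.2 * (g b - P).1) * h
    rw [← he] at hu
    exact (mul_pos hu hv).ne' this
  have Na : N a = 0 := by simp only [N, cr, ← he]; ring
  have Nb : N b = 0 := h
  have ca : ContDiffAt ℝ ∞ φ a := hN.contDiffAt.div hD.contDiffAt Da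
  have cb : ContDiffAt ℝ ∞ φ b := hN.contDiffAt.div hD.contDiffAt Db
  have nb : cr e (deriv g b) ≠ 0 := by
    intro h0
    have s1 := hg.sig_of hP (s := b) (t := a) (by simp only [cr, he] at h ⊢; linarith) h1.symm
    refine h1.symm (s1.2.2 ?_)
    apply mul_left_cancel₀ hu.ne'
    simp only [cr, ← he] at h h0 ⊢
    linear_combination ((deriv g b).1 * e.1 + (deriv g b).2 * e.2) * h -
      (e.1 * (g b - P).1 + e.2 * (g b - P).2) * h0
  have db : HasDerivAt φ (cr e (deriv g b) / D b) b := by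
    have := (hcr1 e P (hg.hd b)).div (hD.differentiable (by simp) b).hasDerivAt Db
    refine this.congr_deriv ?_
    have : cr e (g b - P) = 0 := h
    rw [this]; field_simp; ring
  have sb : HasStrictDerivAt φ (cr e (deriv g b) / D b) b :=
    cb.hasStrictDerivAt' db (by simp)
  have nz : cr e (deriv g b) / D b ≠ 0 := div_ne_zero nb Db
  let ψ := sb.localInverse φ _ b nz
  have φa : φ a = 0 := by simp [φ, Na]
  have φb : φ b = 0 := by simp [φ, Nb]
  have i1 : HasDerivAt ψ _ (φ b) := (sb.to_localInverse nz).hasDerivAt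
  have i2 : ∀ᶠ y in 𝓝 (φ b), φ (ψ y) = y := (sb.hasStrictFDerivAt_equiv nz).eventually_right_inverse
  have i3 : ψ (φ b) = b := (sb.hasStrictFDerivAt_equiv nz).localInverse_apply_image
  rw [φb, ← φa] at i1 i2 i3
  have da := (ca.differentiableAt (by simp)).hasDerivAt
  have df := i1.comp a da
  have fa : (ψ ∘ φ) a = b := i3
  have cf : Tendsto (ψ ∘ φ) (𝓝 a) (𝓝 b) := by
    have := df.continuousAt.tendsto; rwa [fa] at this
  have ev : ∀ᶠ s in 𝓝 a, cr (g s - P) (g ((ψ ∘ φ) s) - P) = 0 := by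
    filter_upwards [da.continuousAt.tendsto.eventually i2,
      hD.continuous.continuousAt.eventually_ne Da,
      cf.eventually (hD.continuous.continuousAt.eventually_ne Db)] with s h1 h2 h3
    change N ((ψ ∘ φ) s) / D ((ψ ∘ φ) s) = N s / D s at h1
    rw [div_eq_div_iff h3 h2] at h1
    rw [← he] at hu
    apply mul_left_cancel₀ hu.ne'
    simp only [N, D, cr] at h1 ⊢
    linear_combination h1
  refine ⟨ψ ∘ φ, _, fa, df, ?_, ?_⟩
  · have : Tendsto (fun s => g ((ψ ∘ φ) s) - g s) (𝓝 a) (𝓝 (g b - g a)) :=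
      ((hs.continuous.tendsto b).comp cf).sub (hs.continuous.tendsto a)
    filter_upwards [ev, this.eventually_ne (sub_ne_zero.2 h1)] with s h2 h3
    exact hg.sig_of hP h2 (sub_ne_zero.1 h3)
  · have g2 : HasDerivAt g (deriv g b) ((ψ ∘ φ) a) := by rw [fa]; exact hg.hd b
    have d := hcr ((hg.hd a).sub_const P) ((g2.scomp a df).sub_const P)
    have := d.unique ((hasDerivAt_const a (0 : ℝ)).congr_of_eventuallyEq ev)
    simp only [Function.comp, cr, Prod.smul_fst, Prod.smul_snd, smul_eq_mul] at this fa ⊢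
    rw [fa] at this
    linear_combination this

end Pool.Agent.H.MP_035beb_an
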