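import Mathlib
import Pool.Agent.H.MP_035beb_an.A

open scoped ContDiff Topology
open Filter Set

namespace Pool.Agent.H.MP_035beb_an

variable {g : ℝ → ℝ × ℝ}

theorem mob_rel (M : (ℝ × ℝ) ≃ₗ[ℝ] (ℝ × ℝ)) {u v : ℝ × ℝ} (hD : cr u v ≠ 0)
    (hu : cr (M u) u = 0) (hv : cr (M v) v = 0) :
    ∃ m n : ℝ, m ≠ 0 ∧ ∀ x y, cr (M x) y = 0 → m * cr x v * cr u y = n * cr u x * cr y v := by
  refine ⟨cr (M u) v, cr u (M v), ?_, fun x y h => ?_⟩
  · intro h
    have : M u = 0 := by
      refine Prod.ext ?_ ?_ <;> apply mul_left_cancel₀ hD <;>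
        simp only [cr, Prod.fst_zero, Prod.snd_zero] at h hu ⊢
      · linear_combination u.1 * h - v.1 * hu
      · linear_combination u.2 * h - v.2 * hu
    rw [M.map_eq_zero_iff] at this
    exact hD (by simp [this, cr])
  · have e : cr u v • x = cr x v • u + cr u x • v := by
      refine Prod.ext ?_ ?_ <;> simp only [cr, Prod.smul_fst, Prod.smul_snd, Prod.fst_add,
        Prod.snd_add, smul_eq_mul] <;> ring
    have e2 := congrArg M e
    simp only [map_add, map_smul] at e2
    have e3 := congrArg Prod.fst e2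
    have e4 := congrArg Prod.snd e2
    simp only [Prod.smul_fst, Prod.smul_snd, Prod.fst_add, Prod.snd_add, smul_eq_mul] at e3 e4
    have h2 : cr x v * cr (M u) y + cr u x * cr (M v) y = 0 := by
      have : cr u v * cr (M x) y = 0 := by rw [h, mul_zero]
      simp only [cr] at this e3 e4 ⊢
      linear_combination this - y.2 * e3 + y.1 * e4
    generalize cr x v = p at *
    generalize cr u x = q at *
    simp only [cr] at h2 hu hv ⊢
    linear_combination (u.1 * v.2 - u.2 * v.1) * h2 - p * (y.1 * v.2 - y.2 * v.1) * hu -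
      q * (u.1 * y.2 - u.2 * y.1) * hv

theorem Oval.key (hg : Oval g) {P Q : ℝ × ℝ} (hP : P ∉ range g) (hQ : Q ∉ range g) {a b α β : ℝ}
    (hab : g b ≠ g a) (hs : α + β = 1) (eP : P = α • g a + β • g b)
    (eQ : (α - β) • Q = α • g a - β • g b) (hC : MobConj g P Q)
    {s t r t' r' : ℝ} (s1 : Sig g P s t) (s2 : Sig g Q t r) (s3 : Sig g P r t')
    (s4 : Sig g Q t' r') : g s = g r' := by
  obtain ⟨h, M, hh, him, hinj, -, hM⟩ := hC
  have hβ : β = 1 - α := by linarith
  subst hβ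
  have P1 := congrArg Prod.fst eP
  have P2 := congrArg Prod.snd eP
  have Q1 := congrArg Prod.fst eQ
  have Q2 := congrArg Prod.snd eQ
  simp only [Prod.smul_fst, Prod.smul_snd, Prod.fst_add, Prod.snd_add, Prod.fst_sub,
    Prod.snd_sub, smul_eq_mul] at P1 P2 Q1 Q2
  have α0 : α ≠ 0 := by
    rintro rfl
    exact hP ⟨b, by simp [eP]⟩
  have α1 : 1 - α ≠ 0 := by
    intro h; rw [h] at eP
    exact hP ⟨a, by rw [eP, show α = 1 by linarith]; simp⟩
  have α2 : α - (1 - α) ≠ 0 := by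
    intro h0
    rw [h0] at Q1 Q2
    have : α = 1 / 2 := by linarith
    subst this
    exact hab (Prod.ext (by linarith) (by linarith))
  have c1 : cr (g a - P) (g b - P) = 0 := by
    simp only [cr, Prod.fst_sub, Prod.snd_sub, P1, P2]; ring
  have c2 : cr (g b - Q) (g a - Q) = 0 := by
    apply mul_left_cancel₀ α2
    simp only [cr, Prod.fst_sub, Prod.snd_sub]
    linear_combination ((g b).2 - (g a).2) * Q1 - ((g b).1 - (g a).1) * Q2
  have c1' : cr (g b - P) (g a - P) = 0 := by simp only [cr] at c1 ⊢; linarith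
  have c2' : cr (g a - Q) (g b - Q) = 0 := by simp only [cr] at c2 ⊢; linarith
  have hD : cr (h a) (h b) ≠ 0 := fun e => hab ((hinj a b).1 e).symm
  obtain ⟨m, n, m0, hmn⟩ := mob_rel M hD
    (hM a b a (hg.sig_of hP c1 hab) (hg.sig_of hQ c2 hab.symm))
    (hM b a b (hg.sig_of hP c1' hab.symm) (hg.sig_of hQ c2' hab))
  obtain ⟨f1, k1, f1a, d1, ev1, e1⟩ := hg.loc hP c1 hab
  obtain ⟨f2, k2, f2b, d2, ev2, e2⟩ := hg.loc hQ c2 hab.symm
  have u0 : cr (deriv g a) (g b - g a) ≠ 0 := fun e => hab (hg.strict _ _ e)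
  have v0 : cr (deriv g b) (g a - g b) ≠ 0 := fun e => hab (hg.strict _ _ e).symm
  have e1' : α * cr (deriv g a) (g b - g a) = k1 * (1 - α) * cr (deriv g b) (g a - g b) := by
    simp only [cr, Prod.fst_sub, Prod.snd_sub, P1, P2] at e1 ⊢
    linear_combination e1
  have e2' : -(1 - α) * cr (deriv g b) (g a - g b) = k2 * α * cr (deriv g a) (g b - g a) := by
    simp only [cr, Prod.fst_sub, Prod.snd_sub] at e2 ⊢
    linear_combination (α - (1 - α)) * e2 +
      (-(deriv g b).2 + k2 * (deriv g a).2) * Q1 + ((deriv g b).1 - k2 * (deriv g a).1) * Q2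
  have kk : k2 * k1 = -1 := by
    apply mul_left_cancel₀ (mul_ne_zero α1 v0)
    linear_combination -k2 * e1' - e2'
  have d2' : HasDerivAt f2 k2 (f1 a) := by rwa [f1a]
  have d := d2'.comp a d1
  have fa : (f2 ∘ f1) a = a := by simp [f1a, f2b]
  have hd : ∀ s, HasDerivAt h (deriv h s) s := fun s =>
    (hh.differentiable (by simp) s).hasDerivAt
  have ev : ∀ᶠ s in 𝓝 a, m * cr (h s) (h b) * cr (h a) (h ((f2 ∘ f1) s)) =
      n * cr (h a) (h s) * cr (h ((f2 ∘ f1) s)) (h b) := by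
    have : Tendsto f1 (𝓝 a) (𝓝 b) := by
      have := d1.continuousAt.tendsto; rwa [f1a] at this
    filter_upwards [ev1, this.eventually ev2] with s h1 h2
    exact hmn _ _ (hM _ _ _ h1 h2)
  have g2 : HasDerivAt h (deriv h a) ((f2 ∘ f1) a) := by rw [fa]; exact hd a
  have g3 := g2.scomp a d
  have L := ((hcr (hd a) (hasDerivAt_const a (h b))).const_mul m).mul
    (hcr (hasDerivAt_const a (h a)) g3)
  have R := ((hcr (hasDerivAt_const a (h a)) (hd a)).const_mul n).mul
    (hcr g3 (hasDerivAt_const a (h b)))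
  have LR := L.unique (R.congr_of_eventuallyEq ev)
  have mn : n = -m := by
    apply mul_left_cancel₀ (mul_ne_zero hD (him a))
    simp only [Function.comp, kk] at LR fa
    rw [fa] at LR
    simp only [cr, Prod.smul_fst, Prod.smul_snd, smul_eq_mul, Prod.fst_zero, Prod.snd_zero] at LR ⊢
    linear_combination -LR
  have r1 := hmn _ _ (hM _ _ _ s1 s2)
  have r2 := hmn _ _ (hM _ _ _ s3 s4)
  subst mn
  refine (hinj s r').1 ?_
  have r1' : cr (h s) (h b) * cr (h a) (h r) + cr (h a) (h s) * cr (h r) (h b) = 0 := by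
    apply mul_left_cancel₀ m0; linear_combination r1
  have r2' : cr (h r) (h b) * cr (h a) (h r') + cr (h a) (h r) * cr (h r') (h b) = 0 := by
    apply mul_left_cancel₀ m0; linear_combination r2
  have hr : (cr (h a) (h r), cr (h r) (h b)) ≠ 0 := by
    intro e
    simp only [Prod.mk_eq_zero] at e
    exact hab (((hinj a r).1 e.1).trans ((hinj r b).1 e.2)).symm
  have := nsq hr
  simp only at this
  apply mul_left_cancel₀ (mul_ne_zero this.ne' hD)
  have id : cr (h a) (h b) * cr (h s) (h r') =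
      cr (h s) (h b) * cr (h a) (h r') - cr (h a) (h s) * cr (h r') (h b) := by
    simp only [cr]; ring
  rw [mul_assoc, id]
  linear_combination (cr (h a) (h r) * cr (h a) (h r') - cr (h r) (h b) * cr (h r') (h b)) * r1' +
    (cr (h r) (h b) * cr (h s) (h b) - cr (h a) (h r) * cr (h a) (h s)) * r2'

/-- the hypothesis of the problem -/
def Hyp (g : ℝ → ℝ × ℝ) : Prop := ∀ P Q, P ∉ range g → Q ∉ range g → P ≠ Q →
  (∃ s, cr (Q - P) (g s - P) = 0) → MobConj g P Q

theorem Oval.coef (hg : Oval g) {P : ℝ × ℝ} (hP : P ∉ range g) {a b T : ℝ} (hab : g b ≠ g a)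
    (hc : cr (g a - P) (g b - P) = 0) (hT : cr (deriv g T) (g T - P) = 0) :
    ∃ α β : ℝ, α + β = 1 ∧ α * β < 0 ∧ P = α • g a + β • g b := by
  have hu := nsq (sub_ne_zero.2 hab)
  obtain ⟨β, hβ⟩ : ∃ β : ℝ, P = (1 - β) • g a + β • g b := by
    refine ⟨((P - g a).1 * (g b - g a).1 + (P - g a).2 * (g b - g a).2) /
      ((g b - g a).1 ^ 2 + (g b - g a).2 ^ 2), Prod.ext ?_ ?_⟩ <;>
    simp only [cr, Prod.smul_fst, Prod.smul_snd, Prod.fst_add, Prod.snd_add, Prod.fst_sub,
      Prod.snd_sub, smul_eq_mul] at hc hu ⊢ <;> field_simp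
    · linear_combination (-((g b).2 - (g a).2)) * hc
    · linear_combination ((g b).1 - (g a).1) * hc
  refine ⟨1 - β, β, by ring, ?_, hβ⟩
  obtain ⟨ε, hε⟩ := hg.sign
  have β0 : β ≠ 0 := by
    rintro rfl
    exact hP ⟨a, by simp [hβ]⟩
  have β1 : 1 - β ≠ 0 := by
    intro h; rw [h] at hβ
    exact hP ⟨b, by rw [hβ, show β = 1 by linarith]; simp⟩
  have e : (1 - β) * (ε * cr (deriv g T) (g a - g T)) + β * (ε * cr (deriv g T) (g b - g T)) = 0 := by
    rw [hβ] at hT
    simp only [cr, Prod.smul_fst, Prod.smul_snd, Prod.fst_add, Prod.snd_add, Prod.fst_sub,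
      Prod.snd_sub, smul_eq_mul] at hT ⊢
    linear_combination -ε * hT
  by_cases ha : g a = g T
  · have := hε T b (ha ▸ hab)
    rw [ha] at e
    simp only [cr, sub_self, Prod.fst_zero, Prod.snd_zero, mul_zero, zero_add] at e this
    exact absurd e (mul_ne_zero β0 this.ne')
  by_cases hb : g b = g T
  · have := hε T a ha
    rw [hb] at e
    simp only [cr, sub_self, Prod.fst_zero, Prod.snd_zero, mul_zero, add_zero] at e this
    exact absurd e (mul_ne_zero β1 this.ne')
  have h1 := hε T a ha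
  have h2 := hε T b hb
  have h3 := mul_pos (mul_self_pos.2 β0) h2
  by_contra hn
  have := mul_nonneg (not_lt.1 hn) h1.le
  nlinarith

theorem Oval.other (hg : Oval g) (H : Hyp g) {P : ℝ × ℝ} (hP : P ∉ range g) {a b α β T : ℝ}
    (hab : g b ≠ g a) (hs : α + β = 1) (hn : α * β < 0) (eP : P = α • g a + β • g b)
    (hT : cr (deriv g T) (g T - P) = 0) :
    ∃ U, g U ≠ g T ∧ cr (deriv g U) (g U - P) = 0 ∧
      α * cr (g U - g T) (g a - g T) = β * cr (g U - g T) (g b - g T) := by
  obtain ⟨ε, hε⟩ := hg.sign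
  have hε' : ∀ s t, 0 ≤ ε * cr (deriv g s) (g t - g s) := fun s t => by
    by_cases h : g t = g s
    · simp [h, cr]
    · exact (hε s t h).le
  have ne : α - β ≠ 0 := by
    intro h; rw [show α = β by linarith] at hn; nlinarith
  let Q : ℝ × ℝ := (α - β)⁻¹ • (α • g a - β • g b)
  have eQ : (α - β) • Q = α • g a - β • g b := smul_inv_smul₀ ne _
  have Q1 := congrArg Prod.fst eQ
  have Q2 := congrArg Prod.snd eQ
  have P1 := congrArg Prod.fst eP
  have P2 := congrArg Prod.snd eP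
  simp only [Prod.smul_fst, Prod.smul_snd, Prod.fst_add, Prod.snd_add, Prod.fst_sub,
    Prod.snd_sub, smul_eq_mul] at P1 P2 Q1 Q2
  clear_value Q
  have nt : ∀ s, cr (deriv g s) (g s - Q) ≠ 0 := by
    intro s h
    have e : α * (ε * cr (deriv g s) (g a - g s)) = β * (ε * cr (deriv g s) (g b - g s)) := by
      simp only [cr, Prod.fst_sub, Prod.snd_sub] at h ⊢
      linear_combination (-ε * (α - β)) * h + ε * (deriv g s).2 * Q1 - ε * (deriv g s).1 * Q2
    have h1 := hε' s a
    have h2 := hε' s b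
    have β0 : β ≠ 0 := by rintro rfl; simp at hn
    have α0 : α ≠ 0 := by rintro rfl; simp at hn
    by_cases ha : g a = g s
    · have := mul_pos (mul_self_pos.2 β0) (hε s b (ha ▸ hab))
      have := mul_nonneg (neg_pos.2 hn).le h1
      have e' := congrArg (β * ·) e
      nlinarith
    · have := mul_pos (mul_self_pos.2 α0) (hε s a ha)
      have := mul_nonneg (neg_pos.2 hn).le h2
      have e' := congrArg (α * ·) e
      nlinarith
  have hQ : Q ∉ range g := by
    rintro ⟨s, rfl⟩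
    exact nt s (by simp [cr])
  have PQ : P ≠ Q := fun h => nt T (h ▸ hT)
  have hC := H P Q hP hQ PQ ⟨a, by
    apply mul_left_cancel₀ ne
    have hβ : β = 1 - α := by linarith
    subst hβ
    simp only [cr, Prod.fst_sub, Prod.snd_sub, P1, P2]
    linear_combination ((1 - α) * ((g a).2 - (g b).2)) * Q1 - ((1 - α) * ((g a).1 - (g b).1)) * Q2⟩
  have s1 : Sig g P T T := ⟨by simp [cr, mul_comm], by simp [hT]⟩
  obtain ⟨U, s2⟩ := hg.sigEx Q T
  obtain ⟨V, s3⟩ := hg.sigEx P U
  obtain ⟨W, s4⟩ := hg.sigEx Q V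
  have e := hg.key hP hQ hab hs eP eQ hC s1 s2 s3 s4
  have UT : g U ≠ g T := fun h => nt T (s2.2.1 h)
  have VT : g V ≠ g T := fun h => nt V (s4.2.1 (e.symm.trans h.symm))
  have c2 := s2.1
  have c4 := s4.1
  rw [← e] at c4
  have hu := nsq (sub_ne_zero.2 (fun e : g T = Q => hQ ⟨T, e⟩))
  have VU : g V = g U := by
    refine hg.col3 ?_ UT VT
    apply mul_left_cancel₀ hu.ne'
    simp only [cr, Prod.fst_sub, Prod.snd_sub] at c2 c4 ⊢
    linear_combination (-(((g T).1 - Q.1) * ((g V).1 - (g T).1) +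
      ((g T).2 - Q.2) * ((g V).2 - (g T).2))) * c2 -
      (((g T).1 - Q.1) * ((g U).1 - (g T).1) + ((g T).2 - Q.2) * ((g U).2 - (g T).2)) * c4
  refine ⟨U, UT, s3.2.1 VU, ?_⟩
  simp only [cr, Prod.fst_sub, Prod.snd_sub] at c2 ⊢
  linear_combination (α - β) * c2 + ((g U).2 - (g T).2) * Q1 - ((g U).1 - (g T).1) * Q2

end Pool.Agent.H.MP_035beb_an
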