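import Mathlib
import Pool.Agent.H.MP_035beb_an.B

open scoped ContDiff Topology
open Filter Set

namespace Pool.Agent.H.MP_035beb_an

variable {g : ℝ → ℝ × ℝ}

theorem Oval.axis (hg : Oval g) (H : Hyp g) {P : ℝ × ℝ} (hP : P ∉ range g) {a b α β T U : ℝ}
    (hs : α + β = 1) (hn : α * β < 0) (eP : P = α • g a + β • g b)
    (hT : cr (deriv g T) (g T - P) = 0) (UT : g U ≠ g T) (hU : cr (deriv g U) (g U - P) = 0)
    (hl : α * cr (g U - g T) (g a - g T) = β * cr (g U - g T) (g b - g T)) :
    cr (g U - g T) (g a - g T) ≠ 0 ∧ cr (deriv g b) (g a - g b) * cr (g U - g T) (deriv g a) =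
      cr (deriv g b) (deriv g a) * cr (g U - g T) (g a - g T) := by
  obtain ⟨ε, hε⟩ := hg.sign
  have hε' : ∀ s t, 0 ≤ ε * cr (deriv g s) (g t - g s) := fun s t => by
    by_cases h : g t = g s
    · simp [h, cr]
    · exact (hε s t h).le
  have ε0 : ε ≠ 0 := by
    rintro rfl
    simpa using hε T U UT
  have α0 : α ≠ 0 := by rintro rfl; simp at hn
  set n := g U - g T with hn'
  have lP : cr n (P - g T) ≠ 0 := by
    intro h
    have c : cr (deriv g T) n ≠ 0 := fun e => UT (hg.strict _ _ e)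
    refine hP ⟨T, Prod.ext ?_ ?_⟩ <;> apply mul_left_cancel₀ c <;>
      simp only [cr, Prod.fst_sub, Prod.snd_sub] at h hT ⊢
    · linear_combination (deriv g T).1 * h + n.1 * hT
    · linear_combination (deriv g T).2 * h + n.2 * hT
  have aff : ∀ (α β : ℝ) (X Y m c : ℝ × ℝ), α + β = 1 → P = α • X + β • Y →
      cr m (P - c) = α * cr m (X - c) + β * cr m (Y - c) := by
    intro α β X Y m c h e
    have hβ : β = 1 - α := by linarith
    subst hβ
    simp only [e, cr, Prod.smul_fst, Prod.smul_snd, Prod.fst_add, Prod.snd_add, Prod.fst_sub,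
      Prod.snd_sub, smul_eq_mul]
    ring
  let ρ : ℝ → ℝ := fun s => ε * cr n (P - g T) * (cr (deriv g b) (g s - g b) * cr n (P - g T) -
    2 * cr n (g s - g T) * cr (deriv g b) (P - g b))
  have pos : ∀ s, 0 ≤ ρ s := by
    intro s
    obtain ⟨t, h1, h2⟩ := hg.sigEx P s
    by_cases e : g t = g s
    · have l0 : cr n (g s - g T) = 0 := by
        by_cases e1 : g s = g T
        · simp [e1, cr]
        by_cases e2 : g s = g U
        · rw [e2, ← hn']; simp only [cr]; ring
        have := hg.tan3 (w := 1) (v := P) UT e1 e2 (by simpa using hT) (by simpa using hU)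
          (by simpa using h2.1 e)
        simp at this
      have := mul_nonneg (hε' b s) (mul_self_nonneg (cr n (P - g T)))
      simp only [ρ, l0]
      linarith
    · obtain ⟨α', β', k1, k2, k3⟩ := hg.coef hP e h1 hT
      obtain ⟨V, v1, v2, v3⟩ := hg.other H hP e k1 k2 k3 hT
      have VU : g V = g U := by
        by_contra hc
        have := hg.tan3 (w := 1) (v := P) UT v1 hc (by simpa using hT) (by simpa using hU)
          (by simpa using v2)
        simp at this
      rw [VU, ← hn'] at v3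
      have a1 := aff _ _ _ _ n (g T) k1 k3
      have a2 := aff _ _ _ _ (deriv g b) (g b) k1 k3
      have α0 : α' ≠ 0 := by rintro rfl; simp at k2
      have e : α' * α' * ρ s = (-(α' * β')) * (cr n (P - g T) * cr n (P - g T)) *
          (ε * cr (deriv g b) (g t - g b)) := by
        simp only [ρ]
        rw [a2]
        have : cr n (P - g T) = 2 * α' * cr n (g s - g T) := by linarith
        rw [this]; ring
      have := mul_nonneg (mul_nonneg (neg_pos.2 k2).le (mul_self_nonneg (cr n (P - g T))))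
        (hε' b t)
      rw [← e] at this
      exact le_of_mul_le_mul_left (by simpa using this) (mul_self_pos.2 α0)
  have a1 := aff _ _ _ _ n (g T) hs eP
  have a2 := aff _ _ _ _ (deriv g b) (g b) hs eP
  have a3 : cr n (P - g T) = 2 * α * cr n (g a - g T) := by linarith
  have a4 : cr (deriv g b) (P - g b) = α * cr (deriv g b) (g a - g b) := by
    rw [a2]; simp [cr]
  have z : ρ a = 0 := by
    simp only [ρ]; rw [a4, a3]; ring
  have lm : IsLocalMin ρ a := Eventually.of_forall fun s => by rw [z]; exact pos s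
  have d := ((((hcr1 (deriv g b) (g b) (hg.hd a)).mul_const (cr n (P - g T))).sub
    (((hcr1 n (g T) (hg.hd a)).const_mul 2).mul_const (cr (deriv g b) (P - g b)))).const_mul
    (ε * cr n (P - g T)))
  have d0 := lm.hasDerivAt_eq_zero d
  have d1 := (mul_eq_zero.1 d0).resolve_left (mul_ne_zero ε0 lP)
  refine ⟨fun h => lP (by rw [a3, h, mul_zero]), ?_⟩
  rw [a3, a4] at d1
  apply mul_left_cancel₀ α0
  linear_combination (-1 / 2) * d1

/-- the expression of the differential equation -/
noncomputable def ode (g : ℝ → ℝ × ℝ) (a b T : ℝ) : ℝ :=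
  cr (g b - g a) (g T - g a) * (cr (deriv g b) (deriv g T) * cr (deriv g a) (g T - g a) +
    cr (deriv g b) (g T - g b) * cr (deriv g a) (deriv g T)) -
  2 * cr (deriv g b) (g T - g b) * cr (deriv g a) (g T - g a) * cr (g b - g a) (deriv g T)

theorem alg {X Z X' Z' y y' α β lA lB p q ρ : ℝ} (α0 : α ≠ 0) (l0 : lA ≠ 0) (p0 : p ≠ 0)
    (h1 : α * lA = β * lB) (h2 : X * lA + Z * lB = 0) (h3 : α * p + β * q = 0)
    (h4 : X * p - y * ρ + Z * q = 0) (h5 : X' * p - y' * ρ + Z' * q = 0) :
    y * (X' * Z + X * Z') - 2 * X * Z * y' = 0 := by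
  have e1 : X * β + Z * α = 0 := by
    apply mul_left_cancel₀ l0; linear_combination β * h2 + Z * h1
  have e2 : X * p = Z * q := by
    apply mul_left_cancel₀ α0; linear_combination X * h3 - q * e1
  apply mul_left_cancel₀ p0
  linear_combination (y * Z) * h5 - (y' * Z) * h4 + (y * Z' - y' * Z) * e2

theorem Oval.ode1 (hg : Oval g) (H : Hyp g) {a b T : ℝ} (hab : g b ≠ g a)
    (hp : cr (deriv g T) (g b - g a) ≠ 0) : ode g a b T = 0 := by
  by_cases ha : g T = g a
  · simp only [ode, ha, hg.deq ha, cr, sub_self, Prod.fst_zero, Prod.snd_zero]; ring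
  by_cases hb : g T = g b
  · simp only [ode, hb, hg.deq hb, cr, sub_self, Prod.fst_zero, Prod.snd_zero]; ring
  let κ := cr (deriv g T) (g T - g a) / cr (deriv g T) (g b - g a)
  let P := g a + κ • (g b - g a)
  have hκ : κ * cr (deriv g T) (g b - g a) = cr (deriv g T) (g T - g a) := div_mul_cancel₀ _ hp
  have hT : cr (deriv g T) (g T - P) = 0 := by
    simp only [P, cr, Prod.smul_fst, Prod.smul_snd, Prod.fst_add, Prod.snd_add, Prod.fst_sub,
      Prod.snd_sub, smul_eq_mul] at hκ ⊢
    linear_combination -hκ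
  have hc : cr (g a - P) (g b - P) = 0 := by
    simp only [P, cr, Prod.smul_fst, Prod.smul_snd, Prod.fst_add, Prod.snd_add, Prod.fst_sub,
      Prod.snd_sub, smul_eq_mul]
    ring
  clear_value P
  have hP : P ∉ range g := by
    rintro ⟨u, rfl⟩
    have e : g u = g T := hg.strict _ _ (by
      simp only [cr, Prod.fst_sub, Prod.snd_sub] at hT ⊢; linarith)
    rw [e] at hc
    exact hab (hg.col3 hc (Ne.symm ha) (Ne.symm hb))
  obtain ⟨α, β, k1, k2, k3⟩ := hg.coef hP hab hc hT
  obtain ⟨U, u1, u2, u3⟩ := hg.other H hP hab k1 k2 k3 hT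
  obtain ⟨l0, l1⟩ := hg.axis H hP k1 k2 k3 hT u1 u2 u3
  have α0 : α ≠ 0 := by rintro rfl; simp at k2
  have p0 : cr (deriv g T) (g a - g T) ≠ 0 := fun e => ha (hg.strict _ _ e).symm
  have x0 : cr (deriv g b) (g a - g b) ≠ 0 := fun e => hab (hg.strict _ _ e).symm
  have z0 : cr (deriv g a) (g b - g a) ≠ 0 := fun e => hab (hg.strict _ _ e)
  have := alg (X := cr (deriv g a) (g b - g a) * cr (deriv g b) (g T - g b))
    (Z := cr (deriv g b) (g a - g b) * cr (deriv g a) (g T - g a))
    (X' := cr (deriv g a) (g b - g a) * cr (deriv g b) (deriv g T))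
    (Z' := cr (deriv g b) (g a - g b) * cr (deriv g a) (deriv g T))
    (y := cr (g b - g a) (g T - g a)) (y' := cr (g b - g a) (deriv g T))
    (q := cr (deriv g T) (g b - g T))
    (ρ := cr (deriv g b) (g a - g b) * cr (deriv g T) (deriv g a) -
      cr (deriv g b) (deriv g a) * cr (deriv g T) (g a - g T)) α0 l0 p0 u3 ?_ ?_ ?_ ?_
  · apply mul_left_cancel₀ (mul_ne_zero x0 z0)
    simp only [ode]
    linear_combination this
  · generalize g U - g T = n at *
    simp only [cr, Prod.fst_sub, Prod.snd_sub] at l1 ⊢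
    linear_combination (((g b).1 - (g a).1) * ((g T).2 - (g a).2) -
      ((g b).2 - (g a).2) * ((g T).1 - (g a).1)) * l1
  · have hβ : β = 1 - α := by linarith
    subst hβ
    simp only [k3, cr, Prod.smul_fst, Prod.smul_snd, Prod.fst_add, Prod.snd_add, Prod.fst_sub,
      Prod.snd_sub, smul_eq_mul] at hT ⊢
    linear_combination -hT
  · simp only [cr, Prod.fst_sub, Prod.snd_sub]; ring
  · simp only [cr, Prod.fst_sub, Prod.snd_sub]; ring

theorem Oval.ode0 (hg : Oval g) (H : Hyp g) {a b : ℝ} (hab : g b ≠ g a) (T : ℝ) :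
    ode g a b T = 0 := by
  by_contra h
  have hc := hg.smooth.continuous
  have hd := hg.sd.continuous
  have c : Continuous (ode g a b) := by unfold ode cr; fun_prop
  obtain ⟨δ, δ0, hδ⟩ := Metric.eventually_nhds_iff.1 (c.continuousAt.eventually_ne h)
  have par : ∀ s, dist s T < δ → cr (deriv g s) ((0 : ℝ) • g s - (g a - g b)) = 0 := by
    intro s hs
    by_contra h'
    exact hδ hs (hg.ode1 H hab (by simpa using h'))
  set η := min δ 1 with hη
  have η0 : 0 < η := lt_min δ0 one_pos
  have η1 : η ≤ δ := min_le_left _ _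
  have η2 : η ≤ 1 := min_le_right _ _
  have := hg.tan3 (s := T) (t := T + η / 3) (r := T + η / 2)
    (hg.ne (by linarith) (by linarith)) (hg.ne (by linarith) (by linarith))
    (hg.ne (by linarith) (by linarith)) (par _ (by simpa using δ0))
    (par _ (by rw [Real.dist_eq, abs_of_pos] <;> linarith))
    (par _ (by rw [Real.dist_eq, abs_of_pos] <;> linarith))
  exact hab (sub_eq_zero.1 this.2).symm

theorem const_on {x y z x' y' z' : ℝ → ℝ} (hx : ∀ s, HasDerivAt x (x' s) s)
    (hy : ∀ s, HasDerivAt y (y' s) s) (hz : ∀ s, HasDerivAt z (z' s) s)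
    (e : ∀ s, y s * (x' s * z s + x s * z' s) - 2 * x s * z s * y' s = 0) {l u : ℝ}
    (hn : ∀ s ∈ Ioo l u, y s ≠ 0) :
    ∃ c, ∀ s ∈ Ioo l u, x s * z s = c * y s ^ 2 ∧ x' s * z s + x s * z' s = c * (2 * y s * y' s) := by
  have d : ∀ s ∈ Ioo l u, HasDerivAt (fun s => x s * z s / y s ^ 2) 0 s := by
    intro s hs
    have := ((hx s).mul (hz s)).div ((hy s).pow 2) (pow_ne_zero 2 (hn s hs))
    refine this.congr_deriv ?_
    rw [div_eq_zero_iff]; left
    simp only [Pi.mul_apply, Pi.pow_apply]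
    push_cast
    linear_combination y s * e s
  obtain ⟨c, hc⟩ := isOpen_Ioo.exists_is_const_of_deriv_eq_zero isPreconnected_Ioo
    (fun s hs => (d s hs).differentiableAt.differentiableWithinAt) (fun s hs => (d s hs).deriv)
  refine ⟨c, fun s hs => ?_⟩
  have h1 : x s * z s = c * y s ^ 2 := by
    rw [← hc s hs, div_mul_cancel₀ _ (pow_ne_zero 2 (hn s hs))]
  refine ⟨h1, ?_⟩
  apply mul_left_cancel₀ (hn s hs)
  linear_combination e s + 2 * y' s * h1

theorem Oval.conic (hg : Oval g) (H : Hyp g) {b : ℝ} (hb : b = 1 / 2) : ∃ c : ℝ, c ≠ 0 ∧ ∀ s,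
    cr (deriv g b) (g s - g b) * cr (deriv g 0) (g s - g 0) =
      c * cr (g b - g 0) (g s - g 0) ^ 2 := by
  have hab : g b ≠ g 0 := hg.ne (by linarith) (by linarith)
  let x : ℝ → ℝ := fun s => cr (deriv g b) (g s - g b)
  let z : ℝ → ℝ := fun s => cr (deriv g 0) (g s - g 0)
  let y : ℝ → ℝ := fun s => cr (g b - g 0) (g s - g 0)
  let x' : ℝ → ℝ := fun s => cr (deriv g b) (deriv g s)
  let z' : ℝ → ℝ := fun s => cr (deriv g 0) (deriv g s)
  let y' : ℝ → ℝ := fun s => cr (g b - g 0) (deriv g s)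
  have hx : ∀ s, HasDerivAt x (x' s) s := fun s => hcr1 _ _ (hg.hd s)
  have hy : ∀ s, HasDerivAt y (y' s) s := fun s => hcr1 _ _ (hg.hd s)
  have hz : ∀ s, HasDerivAt z (z' s) s := fun s => hcr1 _ _ (hg.hd s)
  have e : ∀ s, y s * (x' s * z s + x s * z' s) - 2 * x s * z s * y' s = 0 :=
    fun s => hg.ode0 H hab s
  obtain ⟨c, hc⟩ := const_on hx hy hz e (l := 0) (u := b) fun s hs h =>
    hg.ne hs.2 (by linarith [hs.1]) (hg.col3 h hab (hg.ne hs.1 (by linarith [hs.2]))).symm
  obtain ⟨c', hc'⟩ := const_on hx hy hz e (l := b) (u := 1) fun s hs h =>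
    hg.ne hs.1 (by linarith [hs.2]) (hg.col3 h hab (hg.ne (by linarith [hs.1]) (by linarith [hs.2])))
  have xb : x b = 0 := by simp [x, cr]
  have xb' : x' b = 0 := by simp only [x', cr]; ring
  have yb : y b = 0 := by simp only [y, cr]; ring
  have yb' : y' b ≠ 0 := fun h => hab (hg.strict b 0 (by
    simp only [y', cr, Prod.fst_sub, Prod.snd_sub] at h ⊢; linarith)).symm
  have dd : ∀ e, DifferentiableAt ℝ (fun s => cr e (deriv g s)) b := fun e => by
    simpa using (hcr1 e 0 (hg.hdd b)).differentiableAt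
  have dU := (((dd _).mul (hz b).differentiableAt).add
    ((hx b).differentiableAt.mul (dd (deriv g 0)))).hasDerivAt (f := fun s => x' s * z s + x s * z' s)
  have dV := ((hy b).const_mul 2).mul (dd (g b - g 0)).hasDerivAt
  have l1 := (uniqueDiffWithinAt_Iic b).eq_deriv _ dU.hasDerivWithinAt
    ((dV.const_mul c).hasDerivWithinAt.congr_of_eventuallyEq (by
      filter_upwards [Ioc_mem_nhdsLE (show 0 < b by linarith)] with s hs
      rcases hs.2.lt_or_eq with h | h
      · exact (hc s ⟨hs.1, h⟩).2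
      · simp [h, xb, xb', yb]) (by simp [xb, xb', yb]))
  have l2 := (uniqueDiffWithinAt_Ici b).eq_deriv _ dU.hasDerivWithinAt
    ((dV.const_mul c').hasDerivWithinAt.congr_of_eventuallyEq (by
      filter_upwards [Ico_mem_nhdsGE (show b < 1 by linarith)] with s hs
      rcases hs.1.lt_or_eq with h | h
      · exact (hc' s ⟨h, hs.2⟩).2
      · simp [← h, xb, xb', yb]) (by simp [xb, xb', yb]))
  have cc : c' = c := by
    rw [l1, yb] at l2
    apply mul_left_cancel₀ (mul_ne_zero yb' yb')
    linear_combination (-1 / 2) * l2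
  subst cc
  refine ⟨c', ?_, fun s => ?_⟩
  · rintro rfl
    have := (hc (1 / 4) ⟨by norm_num, by linarith⟩).1
    rw [zero_mul] at this
    rcases mul_eq_zero.1 this with h | h
    · exact hg.ne (s := 1 / 4) (t := b) (by linarith) (by linarith) (hg.strict _ _ h).symm
    · exact hg.ne (s := 0) (t := 1 / 4) (by norm_num) (by norm_num) (hg.strict _ _ h)
  · have e : g (Int.fract s) = g s := (hg.simple _ s).2 ⟨⌊s⌋, by
      have := Int.floor_add_fract s; linarith⟩
    rw [← e]
    rcases (Int.fract_nonneg s).lt_or_eq with h0 | h0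
    · rcases lt_trichotomy (Int.fract s) b with h | h | h
      · exact (hc _ ⟨h0, h⟩).1
      · rw [h]; simp only [cr, sub_self, Prod.fst_zero, Prod.snd_zero]; ring
      · exact (hc' _ ⟨h, Int.fract_lt_one s⟩).1
    · rw [← h0]; simp [cr]

end Pool.Agent.H.MP_035beb_an
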